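import Pool.Agent.Y45.MON.LStm

/-!
# Project MON, job LG3: words of terms, computability of the list of laws
-/

set_option autoImplicit false

namespace Pool.Agent.Y839.MON

open Pool.Agent.Y45.MON Turing Tm
open Pool.Agent.Helper270.WPSource (sym digits_computable)
open Turing.PartrecToTM2 (trNat)

/-! ### values of words -/

section val

variable {G : Type} [Group G] (f : ℕ → G)

/-- the value of a word -/
def E (L : List (ℕ × Bool)) : G := FreeGroup.lift f (FreeGroup.mk L)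

theorem E_append (L K : List (ℕ × Bool)) : E f (L ++ K) = E f L * E f K := by
  unfold E
  rw [← FreeGroup.mul_mk, map_mul]

theorem E_liL (L : List (ℕ × Bool)) : E f (liL L) = (E f L)⁻¹ := by
  unfold E
  rw [← map_inv, FreeGroup.inv_mk]
  rfl

theorem E_nil : E f [] = 1 := by
  unfold E
  rw [← FreeGroup.one_eq_mk, map_one]

theorem E_pwL (L : List (ℕ × Bool)) (n : ℕ) : E f (pwL L n) = E f L ^ n := by
  unfold pwL
  induction n with
  | zero =>
    rw [List.replicate_zero, List.flatten_nil, pow_zero, E_nil]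
  | succ n ih =>
    rw [List.replicate_succ, List.flatten_cons, E_append, ih, pow_succ']

theorem E_var (n : ℕ) : E f [(n, true)] = f n := by
  unfold E
  exact FreeGroup.lift_apply_of

theorem E_P0L (M1 : ℕ) (a b : List (ℕ × Bool)) : E f (P0L M1 a b) = P0 M1 (E f a) (E f b) := by
  unfold P0L P0
  rw [E_append, E_append, E_append, E_pwL, E_liL]

theorem E_X1L (M1 m2 : ℕ) (a b : List (ℕ × Bool)) :
    E f (X1L M1 m2 a b) = X1 M1 m2 (E f a) (E f b) := by
  unfold X1L X1
  rw [E_append, E_append, E_append, E_liL, E_liL, E_pwL, E_P0L]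

theorem E_vvL {r : ℕ} (w : WP r) (j : Fin r) (a b : List (ℕ × Bool)) :
    E f (vvL w j a b) = vv w j (E f a) (E f b) := by
  unfold vvL vv Wj
  simp only [E_append, E_pwL, E_liL, E_X1L]

end val

theorem toL_val : ToLStmt := by
  intro J r w φ G _ f t
  change E f (toL w φ t) = _
  induction t with
  | var n => exact E_var f n
  | op j a b ha hb =>
    change E f (vvL w (φ j) (toL w φ a) (toL w φ b)) = vv w (φ j) _ _
    rw [E_vvL, ha, hb]
  | pow a n ha =>
    change E f (pwL (toL w φ a) n) = _ ^ n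
    rw [E_pwL, ha]
  | com a b ha hb =>
    change E f (toL w φ a ++ toL w φ b ++ liL (toL w φ a) ++ liL (toL w φ b)) = _ * _ * _⁻¹ * _⁻¹
    rw [E_append, E_append, E_append, E_liL, E_liL, ha, hb]

/-! ### computability of the operations on words -/

section prim

theorem pr_rep {α : Type} [Primcodable α] :
    Primrec₂ (fun (k : ℕ) (x : α) => List.replicate k x) := by
  have h : Primrec (fun p : ℕ × α => (List.range p.1).map (fun _ => p.2)) :=
    Primrec.list_map (Primrec.list_range.comp Primrec.fst) (Primrec.snd.comp Primrec.fst).to₂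
  have h2 : Primrec (fun p : ℕ × α => List.replicate p.1 p.2) := h.of_eq fun p => by simp
  exact h2

theorem pr_pwL : Primrec₂ pwL := by
  have h : Primrec (fun p : List (ℕ × Bool) × ℕ => (List.replicate p.2 p.1).flatten) :=
    Primrec.list_flatten.comp (pr_rep.comp Primrec.snd Primrec.fst)
  exact h

theorem pr_liL : Primrec liL := by
  have h : Primrec (fun l : List (ℕ × Bool) => (l.map fun s => (s.1, !s.2)).reverse) := by
    refine Primrec.list_reverse.comp ?_
    refine Primrec.list_map Primrec.id ?_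
    change Primrec (fun x : List (ℕ × Bool) × (ℕ × Bool) => (x.2.1, !x.2.2))
    refine (Primrec.fst.comp Primrec.snd).pair ?_
    have hb : Primrec (fun b : Bool => !b) := Primrec.dom_finite _
    exact hb.comp (Primrec.snd.comp Primrec.snd)
  exact h

theorem pr_app {α : Type} [Primcodable α] {u v : α → List (ℕ × Bool)} (hu : Primrec u)
    (hv : Primrec v) : Primrec (fun x => u x ++ v x) :=
  Primrec.list_append.comp hu hv

theorem pr_P0L (M1 : ℕ) {α : Type} [Primcodable α] {u v : α → List (ℕ × Bool)} (hu : Primrec u)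
    (hv : Primrec v) : Primrec (fun x => P0L M1 (u x) (v x)) := by
  unfold P0L
  exact pr_app (pr_app (pr_app hu hv) (pr_pwL.comp hu (Primrec.const _))) (pr_liL.comp hv)

theorem pr_X1L (M1 m2 : ℕ) {α : Type} [Primcodable α] {u v : α → List (ℕ × Bool)}
    (hu : Primrec u) (hv : Primrec v) : Primrec (fun x => X1L M1 m2 (u x) (v x)) := by
  unfold X1L
  have h := pr_pwL.comp (pr_P0L M1 hu hv) (Primrec.const m2)
  exact pr_app (pr_app (pr_app hu h) (pr_liL.comp hu)) (pr_liL.comp h)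

theorem pr_vvL {r : ℕ} (w : WP r) {α : Type} [Primcodable α] {j : α → Fin r}
    {u v : α → List (ℕ × Bool)} (hj : Primrec j) (hu : Primrec u) (hv : Primrec v) :
    Primrec (fun x => vvL w (j x) (u x) (v x)) := by
  unfold vvL
  have hX := pr_X1L w.M1 w.m2 hu hv
  have he : ∀ i : Fin 4, Primrec (fun x => w.e (j x) i) := fun i =>
    (Primrec.dom_finite (fun a : Fin r => w.e a i)).comp hj
  have hd : Primrec (fun x => w.δ (j x)) := (Primrec.dom_finite w.δ).comp hj
  exact pr_app (pr_app (pr_app (pr_app (pr_app (pr_app (pr_app (pr_pwL.comp hu hd)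
    (pr_pwL.comp hX (he 0))) hv) (pr_pwL.comp hX (he 1))) (pr_liL.comp hu))
    (pr_pwL.comp hX (he 2))) (pr_liL.comp hv)) (pr_pwL.comp hX (he 3))

end prim

/-! ### the constant laws -/

section const

variable {Γ Λ : Type} [Inhabited Γ] [Inhabited Λ]

/-- the laws which do not depend on the input -/
inductive IsC (M : TM0.Machine Γ Λ) (p q N : ℕ) : Tm (Sy Γ Λ) → Prop
  | l0 : IsC M p q N (pow (var 0) N)
  | l2 (s : Λ) (a : Γ) (o o2 : Option Γ) (s1 s2 t1 t2 : Tm (Sy Γ Λ))
      (h : rl M s a o o2 = some (s1, s2, t1, t2)) :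
      IsC M p q N (pow (op Sy.ep (op Sy.al t1 t2) (pow (op Sy.al s1 s2) p)) p)
  | l3p (s : Λ) (a : Γ) (o : Option Γ) (h : M s a = none) :
      IsC M p q N (pow (op Sy.ep
        (op Sy.ga (op (Sy.lc o) (var 0) (var 1)) (op (Sy.rh s a) (var 2) (var 3)))
        (pow (op Sy.al (op (Sy.lc o) (var 0) (var 1)) (op (Sy.rh s a) (var 2) (var 3))) p)) p)
  | l3q (s : Λ) (a : Γ) (o : Option Γ) (h : M s a = none) :
      IsC M p q N (pow (op Sy.eq
        (op Sy.ga (op (Sy.lc o) (var 0) (var 1)) (op (Sy.rh s a) (var 2) (var 3)))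
        (pow (op Sy.al (op (Sy.lc o) (var 0) (var 1)) (op (Sy.rh s a) (var 2) (var 3))) p)) q)
  | l4p (s : Λ) (a : Γ) (o o2 : Option Γ) (s1 s2 t1 t2 : Tm (Sy Γ Λ))
      (h : rl M s a o o2 = some (s1, s2, t1, t2)) :
      IsC M p q N (pow (op Sy.ep (op Sy.ga s1 s2) (op Sy.ga t1 t2)) p)
  | l4q (s : Λ) (a : Γ) (o o2 : Option Γ) (s1 s2 t1 t2 : Tm (Sy Γ Λ))
      (h : rl M s a o o2 = some (s1, s2, t1, t2)) :
      IsC M p q N (pow (op Sy.eq (op Sy.ga s1 s2) (op Sy.ga t1 t2)) q)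
  | l6p : IsC M p q N (pow (op Sy.ep (com (var 0) (var 1)) (op Sy.ga (var 0) (var 1))) p)
  | l6q : IsC M p q N (pow (op Sy.eq (com (var 0) (var 1)) (op Sy.ga (var 0) (var 1))) q)

theorem law_iff (M : TM0.Machine Γ Λ) (l : List Γ) (p q N : ℕ) (t : Tm (Sy Γ Λ)) :
    IsLaw M l p q N t ↔ IsC M p q N t ∨ t = pow (op Sy.al tA0 (tB0 l)) p ∨
      t = pow (op Sy.ep (op Sy.ga (var 0) (var 1)) (op Sy.ga tA0 (tB0 l))) p ∨
      t = pow (op Sy.eq (op Sy.ga (var 0) (var 1)) (op Sy.ga tA0 (tB0 l))) q := by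
  constructor
  · intro h
    cases h with
    | l0 => exact Or.inl IsC.l0
    | l1 => exact Or.inr (Or.inl rfl)
    | l2 s a o o2 s1 s2 t1 t2 h => exact Or.inl (IsC.l2 s a o o2 s1 s2 t1 t2 h)
    | l3p s a o h => exact Or.inl (IsC.l3p s a o h)
    | l3q s a o h => exact Or.inl (IsC.l3q s a o h)
    | l4p s a o o2 s1 s2 t1 t2 h => exact Or.inl (IsC.l4p s a o o2 s1 s2 t1 t2 h)
    | l4q s a o o2 s1 s2 t1 t2 h => exact Or.inl (IsC.l4q s a o o2 s1 s2 t1 t2 h)
    | l5p => exact Or.inr (Or.inr (Or.inl rfl))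
    | l5q => exact Or.inr (Or.inr (Or.inr rfl))
    | l6p => exact Or.inl IsC.l6p
    | l6q => exact Or.inl IsC.l6q
  · rintro (h | rfl | rfl | rfl)
    · cases h with
      | l0 => exact IsLaw.l0
      | l2 s a o o2 s1 s2 t1 t2 h => exact IsLaw.l2 s a o o2 s1 s2 t1 t2 h
      | l3p s a o h => exact IsLaw.l3p s a o h
      | l3q s a o h => exact IsLaw.l3q s a o h
      | l4p s a o o2 s1 s2 t1 t2 h => exact IsLaw.l4p s a o o2 s1 s2 t1 t2 h
      | l4q s a o o2 s1 s2 t1 t2 h => exact IsLaw.l4q s a o o2 s1 s2 t1 t2 h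
      | l6p => exact IsLaw.l6p
      | l6q => exact IsLaw.l6q
    · exact IsLaw.l1
    · exact IsLaw.l5p
    · exact IsLaw.l5q

theorem finite_C [Finite Γ] [Finite Λ] (M : TM0.Machine Γ Λ) (p q N : ℕ) :
    {t | IsC M p q N t}.Finite := by
  have key : ∀ g : Tm (Sy Γ Λ) × Tm (Sy Γ Λ) × Tm (Sy Γ Λ) × Tm (Sy Γ Λ) → Tm (Sy Γ Λ),
      {t | ∃ (s : Λ) (a : Γ) (o o2 : Option Γ) (y : Tm (Sy Γ Λ) × Tm (Sy Γ Λ) × Tm (Sy Γ Λ) ×
        Tm (Sy Γ Λ)), rl M s a o o2 = some y ∧ t = g y}.Finite := by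
    intro g
    have h1 : (Set.range (fun x : Λ × Γ × Option Γ × Option Γ =>
        (rl M x.1 x.2.1 x.2.2.1 x.2.2.2).map g)).Finite := Set.finite_range _
    refine (h1.preimage (Option.some_injective _).injOn).subset ?_
    rintro t ⟨s, a, o, o2, y, h, rfl⟩
    refine ⟨(s, a, o, o2), ?_⟩
    change (rl M s a o o2).map g = _
    rw [h]
    rfl
  have key3 : ∀ g : Λ × Γ × Option Γ → Tm (Sy Γ Λ), (Set.range g).Finite := fun g =>
    Set.finite_range g
  have hfin := ((((((key (fun y => pow (op Sy.ep (op Sy.al y.2.2.1 y.2.2.2)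
      (pow (op Sy.al y.1 y.2.1) p)) p)).union
    (key (fun y => pow (op Sy.ep (op Sy.ga y.1 y.2.1) (op Sy.ga y.2.2.1 y.2.2.2)) p))).union
    (key (fun y => pow (op Sy.eq (op Sy.ga y.1 y.2.1) (op Sy.ga y.2.2.1 y.2.2.2)) q))).union
    (key3 (fun x => pow (op Sy.ep
        (op Sy.ga (op (Sy.lc x.2.2) (var 0) (var 1)) (op (Sy.rh x.1 x.2.1) (var 2) (var 3)))
        (pow (op Sy.al (op (Sy.lc x.2.2) (var 0) (var 1))
          (op (Sy.rh x.1 x.2.1) (var 2) (var 3))) p)) p))).union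
    (key3 (fun x => pow (op Sy.eq
        (op Sy.ga (op (Sy.lc x.2.2) (var 0) (var 1)) (op (Sy.rh x.1 x.2.1) (var 2) (var 3)))
        (pow (op Sy.al (op (Sy.lc x.2.2) (var 0) (var 1))
          (op (Sy.rh x.1 x.2.1) (var 2) (var 3))) p)) q))).union
    (Set.toFinite ({pow (var 0) N,
      pow (op Sy.ep (com (var 0) (var 1)) (op Sy.ga (var 0) (var 1))) p,
      pow (op Sy.eq (com (var 0) (var 1)) (op Sy.ga (var 0) (var 1))) q} :
        Set (Tm (Sy Γ Λ)))))
  refine hfin.subset ?_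
  intro t ht
  cases ht with
  | l0 => exact Or.inr (Or.inl rfl)
  | l2 s a o o2 s1 s2 t1 t2 h =>
    exact Or.inl (Or.inl (Or.inl (Or.inl (Or.inl ⟨s, a, o, o2, _, h, rfl⟩))))
  | l3p s a o h => exact Or.inl (Or.inl (Or.inr ⟨(s, a, o), rfl⟩))
  | l3q s a o h => exact Or.inl (Or.inr ⟨(s, a, o), rfl⟩)
  | l4p s a o o2 s1 s2 t1 t2 h =>
    exact Or.inl (Or.inl (Or.inl (Or.inl (Or.inr ⟨s, a, o, o2, _, h, rfl⟩))))
  | l4q s a o o2 s1 s2 t1 t2 h =>
    exact Or.inl (Or.inl (Or.inl (Or.inr ⟨s, a, o, o2, _, h, rfl⟩)))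
  | l6p => exact Or.inr (Or.inr (Or.inl rfl))
  | l6q => exact Or.inr (Or.inr (Or.inr rfl))

end const

/-! ### the words of the stacks -/

section stack

variable {Λ : Type} [Inhabited Λ] {r : ℕ} (w : WP r)
  (φ : Sy (TM2to1.Γ' PartrecToTM2.K' (fun _ => PartrecToTM2.Γ')) Λ → Fin r)

/-- the digits, coded by the letters -/
noncomputable def kd (a : PartrecToTM2.Γ') : ℕ := (φ (Sy.rc (some (sym false a))) : ℕ)

theorem r_pos (x : Fin r) : 0 < r := lt_of_le_of_lt (Nat.zero_le _) x.2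

/-- decoding -/
def dc (hr : 0 < r) (d : ℕ) : Fin r := ⟨d % r, Nat.mod_lt _ hr⟩

theorem dc_kd (hr : 0 < r) (a : PartrecToTM2.Γ') :
    dc hr (kd φ a) = φ (Sy.rc (some (sym false a))) := by
  apply Fin.ext
  change kd φ a % r = _
  exact Nat.mod_eq_of_lt (φ (Sy.rc (some (sym false a)))).2

theorem pr_dc (hr : 0 < r) : Primrec (dc hr) := by
  rw [← Primrec.fin_val_iff]
  exact Primrec.nat_mod.comp Primrec.id (Primrec.const r)

/-- the word of the right stack from the codes -/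
noncomputable def wR (hr : 0 < r) (l : List ℕ) : List (ℕ × Bool) :=
  l.foldr (fun d acc => vvL w (dc hr d) acc (toL w φ tA0))
    (toL w φ (op (Sy.rc none) (var 0) (var 1)))

theorem wR_eq (hr : 0 < r) (l : List PartrecToTM2.Γ') :
    wR w φ hr (l.map (kd φ)) = toL w φ (tR (l.map (sym false))) := by
  induction l with
  | nil => rfl
  | cons a l ih =>
    rw [List.map_cons, List.map_cons]
    change vvL w (dc hr (kd φ a)) (wR w φ hr (l.map (kd φ))) (toL w φ tA0) =
      vvL w (φ (Sy.rc (some (sym false a)))) (toL w φ (tR (l.map (sym false)))) (toL w φ tA0)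
    rw [ih, dc_kd]

theorem pr_wR (hr : 0 < r) : Primrec (wR w φ hr) := by
  unfold wR
  refine Primrec.list_foldr (f := fun l : List ℕ => l)
    (g := fun _ => toL w φ (op (Sy.rc none) (var 0) (var 1)))
    (h := fun _ (p : ℕ × List (ℕ × Bool)) => vvL w (dc hr p.1) p.2 (toL w φ tA0))
    Primrec.id (Primrec.const _) ?_
  change Primrec (fun x : List ℕ × (ℕ × List (ℕ × Bool)) =>
    vvL w (dc hr x.2.1) x.2.2 (toL w φ tA0))
  exact pr_vvL w ((pr_dc hr).comp (Primrec.fst.comp Primrec.snd)) (Primrec.snd.comp Primrec.snd)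
    (Primrec.const _)

theorem comp_tR : Computable (fun n : ℕ =>
    toL w φ (tR ((trNat n).reverse.map (sym false)))) := by
  have h1 := digits_computable (kd φ)
  have h2 : Computable (fun n : ℕ => ((trNat n).map (kd φ)).reverse) :=
    Primrec.list_reverse.to_comp.comp h1
  have h3 := (pr_wR w φ (r_pos (φ Sy.al))).to_comp.comp h2
  refine h3.of_eq fun n => ?_
  rw [← List.map_reverse, wR_eq]

theorem comp_tB0 : Computable (fun n : ℕ => toL w φ (tB0 (inp n))) := by
  have h : Primrec (fun x : List (ℕ × Bool) =>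
      vvL w (φ (Sy.rh default (sym true .cons))) x (toL w φ tA0)) :=
    pr_vvL w (Primrec.const _) Primrec.id (Primrec.const _)
  exact (h.to_comp.comp (comp_tR w φ)).of_eq fun n => rfl

end stack

theorem comp_laws : CompStmt := by
  intro Λ _ _ M p q N r w φ
  have fK : Finite PartrecToTM2.K' := by
    refine Finite.of_injective (fun k : PartrecToTM2.K' => match k with
      | .main => (0 : Fin 4) | .rev => 1 | .aux => 2 | .stack => 3) ?_
    intro a b h
    cases a <;> cases b <;> simp_all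
  have fG : Finite (TM2to1.Γ' PartrecToTM2.K' (fun _ => PartrecToTM2.Γ')) :=
    inferInstanceAs (Finite (Bool × (PartrecToTM2.K' → Option PartrecToTM2.Γ')))
  have hC := finite_C M p q N
  set LC : List (List (ℕ × Bool)) := hC.toFinset.toList.map (toL w φ) with hLC
  have hB := comp_tB0 w φ
  have g1 : Primrec (fun x : List (ℕ × Bool) => pwL (vvL w (φ Sy.al) (toL w φ tA0) x) p) :=
    pr_pwL.comp (pr_vvL w (Primrec.const _) (Primrec.const _) Primrec.id) (Primrec.const _)
  have g2 : ∀ (s : Fin r) (k : ℕ), Primrec (fun x : List (ℕ × Bool) =>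
      pwL (vvL w s (toL w φ (op Sy.ga (var 0) (var 1))) (vvL w (φ Sy.ga) (toL w φ tA0) x)) k) :=
    fun s k => pr_pwL.comp (pr_vvL w (Primrec.const _) (Primrec.const _)
      (pr_vvL w (Primrec.const _) (Primrec.const _) Primrec.id)) (Primrec.const _)
  refine ⟨fun n => pwL (vvL w (φ Sy.al) (toL w φ tA0) (toL w φ (tB0 (inp n)))) p ::
    (pwL (vvL w (φ Sy.ep) (toL w φ (op Sy.ga (var 0) (var 1)))
      (vvL w (φ Sy.ga) (toL w φ tA0) (toL w φ (tB0 (inp n))))) p ::
    (pwL (vvL w (φ Sy.eq) (toL w φ (op Sy.ga (var 0) (var 1)))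
      (vvL w (φ Sy.ga) (toL w φ tA0) (toL w φ (tB0 (inp n))))) q :: LC)), ?_, ?_⟩
  · refine Computable.list_cons.comp (g1.to_comp.comp hB) ?_
    refine Computable.list_cons.comp ((g2 _ _).to_comp.comp hB) ?_
    exact Computable.list_cons.comp ((g2 _ _).to_comp.comp hB) (Computable.const _)
  · intro n W
    have h1 : W ∈ LC ↔ ∃ t, IsC M p q N t ∧ W = toL w φ t := by
      rw [hLC, List.mem_map]
      constructor
      · rintro ⟨t, ht, rfl⟩
        exact ⟨t, hC.mem_toFinset.1 (Finset.mem_toList.1 ht), rfl⟩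
      · rintro ⟨t, ht, rfl⟩
        exact ⟨t, Finset.mem_toList.2 (hC.mem_toFinset.2 ht), rfl⟩
    rw [List.mem_cons, List.mem_cons, List.mem_cons, h1]
    constructor
    · rintro (h | h | h | ⟨t, ht, h⟩)
      · exact ⟨_, IsLaw.l1, h⟩
      · exact ⟨_, IsLaw.l5p, h⟩
      · exact ⟨_, IsLaw.l5q, h⟩
      · exact ⟨t, (law_iff M _ p q N t).2 (Or.inl ht), h⟩
    · rintro ⟨t, ht, h⟩
      rcases (law_iff M _ p q N t).1 ht with h2 | rfl | rfl | rfl
      · exact Or.inr (Or.inr (Or.inr ⟨t, h2, h⟩))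
      · exact Or.inl h
      · exact Or.inr (Or.inl h)
      · exact Or.inr (Or.inr (Or.inl h))

end Pool.Agent.Y839.MON
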